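import Mathlib

/-!
# The one-or-all token game with 12 piles (MP_b8aaf5, Q1)

The position with six piles of size 5 and six piles of size 6 is a P-position, although the
number 6 of its odd piles is not in `S₁₂`. So Q1 is false (first at `k = 12`).
-/

set_option autoImplicit false

namespace Pool.Agent.Results.MP_b8aaf5_co.TwelvePiles

/-- The moves of the game; positions are multisets of positive pile sizes. A unimove removes one
token from one pile (an empty pile is discarded), an allmove removes one token from each pile. -/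
inductive Move : Multiset ℕ → Multiset ℕ → Prop
  | uni_one (s : Multiset ℕ) : Move (1 ::ₘ s) s
  | uni_succ (n : ℕ) (s : Multiset ℕ) : Move ((n + 2) ::ₘ s) ((n + 1) ::ₘ s)
  | all (s : Multiset ℕ) : s ≠ 0 → Move s ((s.map fun n => n - 1).filter fun n => 0 < n)

mutual
  /-- P-positions: every move leads to an N-position (in particular the empty position). -/
  inductive PPos : Multiset ℕ → Prop
    | mk (p : Multiset ℕ) : (∀ q, Move p q → NPos q) → PPos p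
  /-- N-positions: some move leads to a P-position. -/
  inductive NPos : Multiset ℕ → Prop
    | mk (p q : Multiset ℕ) : Move p q → PPos q → NPos p
end

/-- The set `S_k` of the problem. -/
def S (k : ℕ) : Set ℕ :=
  {j | j ≤ k ∧ (if k % 2 = 1 then j % 2 = 0
    else (j % 2 = 0 ∧ j < k / 2) ∨ (j % 2 = 1 ∧ k / 2 < j))}

/-- The statement of Q1: for `k ≥ 3`, a position with `k` piles, all larger than `⌈k/3⌉`, is a
P-position iff the number of its odd piles is in `S_k`. -/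
def Q1 : Prop :=
  ∀ k, 3 ≤ k → ∀ p : Multiset ℕ, p.card = k → (∀ x ∈ p, (k + 2) / 3 < x) →
    (PPos p ↔ (p.filter fun n => n % 2 = 1).card ∈ S k)

/-- positions with piles of size at most 6, by the numbers of the piles of size `1, …, 6` -/
abbrev T := ℕ × ℕ × ℕ × ℕ × ℕ × ℕ

open Multiset in
/-- the multiset of the piles -/
def ms : T → Multiset ℕ
  | (a, b, c, d, e, f) => replicate a 1 + replicate b 2 + replicate c 3 + replicate d 4 +
      replicate e 5 + replicate f 6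

/-- the number of tokens -/
def wt : T → ℕ
  | (a, b, c, d, e, f) => a + 2 * b + 3 * c + 4 * d + 5 * e + 6 * f

/-- the moves -/
def mv : T → List T
  | (a, b, c, d, e, f) =>
    (if 0 < a then [(a - 1, b, c, d, e, f)] else []) ++
    (if 0 < b then [(a + 1, b - 1, c, d, e, f)] else []) ++
    (if 0 < c then [(a, b + 1, c - 1, d, e, f)] else []) ++
    (if 0 < d then [(a, b, c + 1, d - 1, e, f)] else []) ++
    (if 0 < e then [(a, b, c, d + 1, e - 1, f)] else []) ++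
    (if 0 < f then [(a, b, c, d, e + 1, f - 1)] else []) ++
    (if 0 < a + b + c + d + e + f then [(b, c, d, e, f, 0)] else [])

/-- the replies: P-positions (a strategy of the player who does not start) -/
def table : List T :=
  [(0,0,0,0,0,0), (0,1,0,0,0,0), (0,2,0,0,0,0), (2,1,0,0,0,0), (0,0,0,1,0,0), (0,1,0,1,0,0),
   (4,1,0,0,0,0), (2,0,0,1,0,0), (0,3,0,0,0,0), (2,2,0,0,0,0), (1,0,1,1,0,0), (0,1,2,0,0,0),
   (2,3,0,0,0,0), (2,1,0,1,0,0), (4,0,0,1,0,0), (0,4,0,0,0,0), (4,2,0,0,0,0), (6,1,0,0,0,0),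
   (4,1,0,1,0,0), (0,0,2,1,0,0), (6,2,0,0,0,0), (6,0,0,1,0,0), (2,4,0,0,0,0), (1,3,1,0,0,0),
   (2,1,2,0,0,0), (4,3,0,0,0,0), (2,0,0,2,0,0), (0,3,0,1,0,0), (0,5,0,0,0,0), (8,1,0,0,0,0),
   (0,1,3,0,0,0), (4,4,0,0,0,0), (8,0,0,1,0,0), (6,3,0,0,0,0), (2,5,0,0,0,0), (6,1,0,1,0,0),
   (4,1,2,0,0,0), (10,1,0,0,0,0), (8,2,0,0,0,0), (2,0,2,1,0,0), (0,0,0,3,0,0), (2,3,0,1,0,0),
   (2,1,0,2,0,0), (3,3,1,0,0,0), (0,3,2,0,0,0), (0,2,0,2,0,0), (0,6,0,0,0,0), (2,1,3,0,0,0),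
   (2,3,2,0,0,0), (5,3,1,0,0,0), (6,1,2,0,0,0), (2,4,0,1,0,0), (4,5,0,0,0,0), (8,1,0,1,0,0),
   (1,1,1,2,0,0), (2,0,0,3,0,0), (10,2,0,0,0,0), (6,4,0,0,0,0), (2,2,0,2,0,0), (8,3,0,0,0,0),
   (7,0,1,1,0,0), (0,1,4,0,0,0), (2,6,0,0,0,0), (3,2,1,1,0,0), (4,1,3,0,0,0), (0,3,3,0,0,0),
   (2,3,0,2,0,0), (8,4,0,0,0,0), (2,1,4,0,0,0), (4,0,0,3,0,0), (6,5,0,0,0,0), (0,2,0,3,0,0),
   (3,1,1,2,0,0), (5,2,1,1,0,0), (4,3,2,0,0,0), (8,0,0,2,0,0), (0,5,2,0,0,0), (4,6,0,0,0,0),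
   (0,1,2,2,0,0), (6,3,0,1,0,0), (8,1,2,0,0,0), (0,0,0,4,0,0), (2,5,0,1,0,0), (7,3,1,0,0,0),
   (6,1,3,0,0,0), (2,3,3,0,0,0), (0,1,5,0,0,0), (4,1,4,0,0,0), (2,1,2,2,0,0), (2,4,0,2,0,0),
   (2,0,0,4,0,0), (4,1,0,3,0,0), (6,2,0,2,0,0), (1,1,1,3,0,0), (4,5,0,1,0,0), (7,2,1,1,0,0),
   (2,5,2,0,0,0), (6,3,2,0,0,0), (5,1,1,2,0,0), (2,2,0,3,0,0), (0,5,3,0,0,0), (4,3,3,0,0,0),
   (2,1,5,0,0,0), (8,1,3,0,0,0), (2,0,2,3,0,0), (0,0,0,5,0,0), (2,3,0,3,0,0), (0,2,0,4,0,0),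
   (7,1,1,2,0,0), (4,0,0,4,0,0), (0,3,2,2,0,0), (4,4,0,2,0,0), (5,4,1,1,0,0), (0,7,2,0,0,0),
   (4,1,2,2,0,0), (0,3,5,0,0,0), (6,3,3,0,0,0), (2,5,3,0,0,0), (4,1,5,0,0,0), (5,3,1,2,0,0),
   (1,1,1,4,0,0), (6,1,2,2,0,0), (2,3,2,2,0,0), (4,0,2,3,0,0), (2,0,0,5,0,0), (0,5,4,0,0,0),
   (6,0,0,4,0,0), (2,4,0,3,0,0), (2,2,0,4,0,0), (0,2,2,3,0,0), (0,7,3,0,0,0), (4,5,3,0,0,0),
   (2,3,5,0,0,0), (6,0,2,3,0,0), (0,0,4,3,0,0), (2,0,2,4,0,0), (4,0,0,5,0,0), (0,0,0,6,0,0),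
   (4,2,0,4,0,0), (2,1,0,5,0,0), (0,3,6,0,0,0), (2,5,4,0,0,0), (0,4,0,4,0,0), (4,4,0,3,0,0),
   (0,6,0,3,0,0), (0,5,2,2,0,0), (2,2,2,3,0,0), (0,5,5,0,0,0), (2,7,3,0,0,0), (4,3,0,4,0,0),
   (2,0,4,3,0,0), (2,1,2,4,0,0), (2,0,0,6,0,0), (2,2,0,5,0,0), (1,5,1,3,0,0), (4,0,2,4,0,0),
   (0,4,2,3,0,0), (2,6,0,3,0,0), (0,2,2,4,0,0), (4,2,2,3,0,0), (1,3,1,4,0,0), (0,9,3,0,0,0),
   (2,1,0,6,0,0), (0,3,2,4,0,0), (2,2,2,4,0,0), (3,3,1,4,0,0), (2,3,0,5,0,0), (4,0,4,3,0,0),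
   (2,4,2,3,0,0), (4,1,2,4,0,0), (0,8,0,3,0,0), (0,0,4,4,0,0), (0,6,0,4,0,0), (0,2,4,3,0,0),
   (0,7,5,0,0,0), (2,4,0,5,0,0), (0,7,0,4,0,0), (1,3,1,5,0,0), (1,5,1,4,0,0), (0,4,2,4,0,0),
   (0,6,2,3,0,0), (2,2,0,6,0,0), (2,0,4,4,0,0), (4,2,2,4,0,0), (0,1,4,4,0,0), (2,2,4,3,0,0),
   (0,0,6,3,0,0), (2,0,6,3,0,0), (0,5,2,4,0,0), (2,4,2,4,0,0), (3,3,1,5,0,0), (0,8,0,4,0,0),
   (0,3,2,5,0,0), (2,3,0,6,0,0), (0,2,4,4,0,0), (2,1,4,4,0,0), (1,1,3,5,0,0), (0,6,0,5,0,0),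
   (0,2,2,6,0,0), (1,5,1,5,0,0), (1,1,5,4,0,0), (0,4,2,5,0,0), (2,4,0,6,0,0), (2,2,4,4,0,0),
   (2,0,4,5,0,0), (0,5,0,6,0,0), (3,1,3,5,0,0), (0,6,2,4,0,0), (2,2,2,6,0,0), (1,1,3,6,0,0),
   (0,3,2,6,0,0), (1,3,3,5,0,0), (2,0,6,4,0,0), (0,4,4,4,0,0), (0,2,4,5,0,0), (2,0,4,6,0,0),
   (1,1,5,5,0,0), (0,1,4,6,0,0), (0,2,6,4,0,0), (0,1,6,5,0,0), (0,0,8,4,0,0), (0,0,6,6,0,0),
   (0,1,5,0,6,0), (0,1,3,2,6,0), (0,1,1,4,6,0), (0,0,0,7,5,0), (0,0,1,5,6,0), (0,0,0,0,6,6)]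

set_option maxRecDepth 100000 in
theorem check : ∀ t ∈ table, ∀ t' ∈ mv t, ∃ t'' ∈ mv t', t'' ∈ table := by
  decide +kernel

open Multiset in
lemma ms1 (a b c d e f : ℕ) : ms (a + 1, b, c, d, e, f) = 1 ::ₘ ms (a, b, c, d, e, f) := by
  simp [ms, replicate_succ, cons_add]
open Multiset in
lemma ms2 (a b c d e f : ℕ) : ms (a, b + 1, c, d, e, f) = 2 ::ₘ ms (a, b, c, d, e, f) := by
  simp [ms, replicate_succ, cons_add, add_cons]
open Multiset in
lemma ms3 (a b c d e f : ℕ) : ms (a, b, c + 1, d, e, f) = 3 ::ₘ ms (a, b, c, d, e, f) := by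
  simp [ms, replicate_succ, cons_add, add_cons]
open Multiset in
lemma ms4 (a b c d e f : ℕ) : ms (a, b, c, d + 1, e, f) = 4 ::ₘ ms (a, b, c, d, e, f) := by
  simp [ms, replicate_succ, cons_add, add_cons]
open Multiset in
lemma ms5 (a b c d e f : ℕ) : ms (a, b, c, d, e + 1, f) = 5 ::ₘ ms (a, b, c, d, e, f) := by
  simp [ms, replicate_succ, cons_add, add_cons]
open Multiset in
lemma ms6 (a b c d e f : ℕ) : ms (a, b, c, d, e, f + 1) = 6 ::ₘ ms (a, b, c, d, e, f) := by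
  simp [ms, replicate_succ, cons_add, add_cons]

open Multiset in
lemma ms_all (a b c d e f : ℕ) :
    ((ms (a, b, c, d, e, f)).map fun n => n - 1).filter (fun n => 0 < n)
      = ms (b, c, d, e, f, 0) := by
  have h0 : filter (fun n : ℕ => 0 < n) (replicate a 0) = 0 := by
    rw [filter_eq_nil]
    intro x hx
    rw [eq_of_mem_replicate hx]
    omega
  have h : ∀ m k : ℕ, 0 < k → filter (fun n : ℕ => 0 < n) (replicate m k) = replicate m k := by
    intro m k hk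
    rw [filter_eq_self]
    intro x hx
    rw [eq_of_mem_replicate hx]
    exact hk
  simp only [ms, Multiset.map_add, map_replicate, filter_add]
  norm_num [h0, h]

open Multiset in
lemma mem_ms (a b c d e f x : ℕ) : x ∈ ms (a, b, c, d, e, f) ↔
    (x = 1 ∧ 0 < a) ∨ (x = 2 ∧ 0 < b) ∨ (x = 3 ∧ 0 < c) ∨ (x = 4 ∧ 0 < d) ∨ (x = 5 ∧ 0 < e) ∨
      (x = 6 ∧ 0 < f) := by
  simp only [ms, mem_add, mem_replicate, Nat.pos_iff_ne_zero]
  tauto

open Multiset in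
lemma card_ms (a b c d e f : ℕ) : (ms (a, b, c, d, e, f)).card = a + b + c + d + e + f := by
  simp [ms]

lemma ms_eq_zero {a b c d e f : ℕ} (h : ms (a, b, c, d, e, f) = 0) :
    a + b + c + d + e + f = 0 := by
  rw [← card_ms, h]; rfl

/-- the moves are the moves -/
lemma fwd (t : T) (q : Multiset ℕ) (h : Move (ms t) q) : ∃ t' ∈ mv t, q = ms t' := by
  obtain ⟨a, b, c, d, e, f⟩ := t
  generalize hp : ms (a, b, c, d, e, f) = p at h
  cases h with
  | uni_one s =>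
    have hm : 1 ∈ ms (a, b, c, d, e, f) := by rw [hp]; exact Multiset.mem_cons_self _ _
    rw [mem_ms] at hm
    have ha : 0 < a := by omega
    obtain ⟨a', rfl⟩ : ∃ a', a = a' + 1 := ⟨a - 1, by omega⟩
    rw [ms1] at hp
    refine ⟨(a', b, c, d, e, f), by simp [mv], ((Multiset.cons_inj_right _).1 hp).symm⟩
  | uni_succ n s =>
    have hm : n + 2 ∈ ms (a, b, c, d, e, f) := by rw [hp]; exact Multiset.mem_cons_self _ _
    rw [mem_ms] at hm
    rcases hm with ⟨h1, h2⟩ | ⟨h1, h2⟩ | ⟨h1, h2⟩ | ⟨h1, h2⟩ | ⟨h1, h2⟩ | ⟨h1, h2⟩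
    · omega
    · obtain rfl : n = 0 := by omega
      obtain ⟨b', rfl⟩ : ∃ a', b = a' + 1 := ⟨b - 1, by omega⟩
      rw [ms2] at hp
      refine ⟨(a + 1, b', c, d, e, f), by simp [mv], ?_⟩
      rw [ms1, (Multiset.cons_inj_right _).1 hp]
    · obtain rfl : n = 1 := by omega
      obtain ⟨b', rfl⟩ : ∃ a', c = a' + 1 := ⟨c - 1, by omega⟩
      rw [ms3] at hp
      refine ⟨(a, b + 1, b', d, e, f), by simp [mv], ?_⟩
      rw [ms2, (Multiset.cons_inj_right _).1 hp]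
    · obtain rfl : n = 2 := by omega
      obtain ⟨b', rfl⟩ : ∃ a', d = a' + 1 := ⟨d - 1, by omega⟩
      rw [ms4] at hp
      refine ⟨(a, b, c + 1, b', e, f), by simp [mv], ?_⟩
      rw [ms3, (Multiset.cons_inj_right _).1 hp]
    · obtain rfl : n = 3 := by omega
      obtain ⟨b', rfl⟩ : ∃ a', e = a' + 1 := ⟨e - 1, by omega⟩
      rw [ms5] at hp
      refine ⟨(a, b, c, d + 1, b', f), by simp [mv], ?_⟩
      rw [ms4, (Multiset.cons_inj_right _).1 hp]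
    · obtain rfl : n = 4 := by omega
      obtain ⟨b', rfl⟩ : ∃ a', f = a' + 1 := ⟨f - 1, by omega⟩
      rw [ms6] at hp
      refine ⟨(a, b, c, d, e + 1, b'), by simp [mv], ?_⟩
      rw [ms5, (Multiset.cons_inj_right _).1 hp]
  | all _ hs =>
    subst hp
    refine ⟨(b, c, d, e, f, 0), ?_, ms_all a b c d e f⟩
    have : 0 < a + b + c + d + e + f := by
      rw [← card_ms]
      exact Multiset.card_pos.2 hs
    simp only [mv, this, if_true, List.mem_append, List.mem_singleton, or_true]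

lemma bwd (t t' : T) (h : t' ∈ mv t) : Move (ms t) (ms t') ∧ wt t' < wt t := by
  obtain ⟨a, b, c, d, e, f⟩ := t
  simp only [mv, List.mem_append] at h
  rcases h with (((((h | h) | h) | h) | h) | h) | h
  · split_ifs at h with h0
    · obtain ⟨a', rfl⟩ : ∃ a', a = a' + 1 := ⟨a - 1, by omega⟩
      rw [List.mem_singleton] at h
      subst h
      rw [ms1]
      exact ⟨Move.uni_one _, by simp only [wt]; omega⟩
    · simp at h
  · split_ifs at h with h0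
    · obtain ⟨a', rfl⟩ : ∃ a', b = a' + 1 := ⟨b - 1, by omega⟩
      rw [List.mem_singleton] at h
      subst h
      rw [ms2, ms1]
      exact ⟨Move.uni_succ 0 _, by simp only [wt]; omega⟩
    · simp at h
  · split_ifs at h with h0
    · obtain ⟨a', rfl⟩ : ∃ a', c = a' + 1 := ⟨c - 1, by omega⟩
      rw [List.mem_singleton] at h
      subst h
      rw [ms3, ms2]
      exact ⟨Move.uni_succ 1 _, by simp only [wt]; omega⟩
    · simp at h
  · split_ifs at h with h0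
    · obtain ⟨a', rfl⟩ : ∃ a', d = a' + 1 := ⟨d - 1, by omega⟩
      rw [List.mem_singleton] at h
      subst h
      rw [ms4, ms3]
      exact ⟨Move.uni_succ 2 _, by simp only [wt]; omega⟩
    · simp at h
  · split_ifs at h with h0
    · obtain ⟨a', rfl⟩ : ∃ a', e = a' + 1 := ⟨e - 1, by omega⟩
      rw [List.mem_singleton] at h
      subst h
      rw [ms5, ms4]
      exact ⟨Move.uni_succ 3 _, by simp only [wt]; omega⟩
    · simp at h
  · split_ifs at h with h0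
    · obtain ⟨a', rfl⟩ : ∃ a', f = a' + 1 := ⟨f - 1, by omega⟩
      rw [List.mem_singleton] at h
      subst h
      rw [ms6, ms5]
      exact ⟨Move.uni_succ 4 _, by simp only [wt]; omega⟩
    · simp at h
  · split_ifs at h with h0
    · rw [List.mem_singleton] at h
      subst h
      rw [← ms_all a b c d e f]
      refine ⟨Move.all _ ?_, by simp only [wt]; omega⟩
      intro h1
      have := ms_eq_zero h1
      omega
    · simp at h

lemma table_P : ∀ n : ℕ, ∀ t ∈ table, wt t ≤ n → PPos (ms t) := by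
  intro n
  induction n with
  | zero =>
    intro t ht hn
    refine PPos.mk _ ?_
    intro q hq
    obtain ⟨t', ht', rfl⟩ := fwd t q hq
    have := (bwd t t' ht').2
    omega
  | succ n ih =>
    intro t ht hn
    refine PPos.mk _ ?_
    intro q hq
    obtain ⟨t', ht', rfl⟩ := fwd t q hq
    obtain ⟨t'', h1, h2⟩ := check t ht t' ht'
    have h3 := bwd t t' ht'
    have h4 := bwd t' t'' h1
    exact NPos.mk _ _ h4.1 (ih t'' h2 (by omega))

/-- no position is both a P-position and an N-position -/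
theorem not_both : ∀ p, PPos p → ¬ NPos p := by
  intro p hp
  refine PPos.rec (motive_1 := fun p _ => ¬ NPos p) (motive_2 := fun p _ => ¬ PPos p) ?_ ?_ hp
  · intro p _ ih hN
    obtain ⟨_, q, hm, hq⟩ := hN
    exact ih q hm hq
  · intro p q hm _ ih hP
    obtain ⟨_, h⟩ := hP
    exact ih (h q hm)

theorem result :
    PPos (Multiset.replicate 6 5 + Multiset.replicate 6 6) ∧
    ¬ NPos (Multiset.replicate 6 5 + Multiset.replicate 6 6) ∧
    ((Multiset.replicate 6 5 + Multiset.replicate 6 6).filter fun n => n % 2 = 1).card ∉ S 12 ∧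
    ¬ Q1 := by
  have h : ms (0, 0, 0, 0, 6, 6) = Multiset.replicate 6 5 + Multiset.replicate 6 6 := by
    simp [ms]
  have hP : PPos (Multiset.replicate 6 5 + Multiset.replicate 6 6) := by
    rw [← h]
    exact table_P _ _ (by decide +kernel) le_rfl
  have hc : ((Multiset.replicate 6 5 + Multiset.replicate 6 6).filter
      fun n => n % 2 = 1).card = 6 := by decide +kernel
  have hS : ((Multiset.replicate 6 5 + Multiset.replicate 6 6).filter
      fun n => n % 2 = 1).card ∉ S 12 := by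
    rw [hc]
    simp [S]
  refine ⟨hP, not_both _ hP, hS, ?_⟩
  intro hQ
  refine hS ((hQ 12 (by norm_num) _ (by simp) ?_).1 hP)
  intro x hx
  rw [Multiset.mem_add] at hx
  rcases hx with hx | hx
  · rw [Multiset.eq_of_mem_replicate hx]
    norm_num
  · rw [Multiset.eq_of_mem_replicate hx]
    norm_num

end Pool.Agent.Results.MP_b8aaf5_co.TwelvePiles

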